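import Pool.Agent.Q192.TR.Tree

set_option autoImplicit false

/-! The graphs of the shapes are trees. -/

namespace Q192.TR.RT

open Finset

theorem reachable_inl {a b : RT} {x y : a.V} (h : a.G.Reachable x y) :
    (join a b).G.Reachable (inl x) (inl y) :=
  h.map (⟨inl, fun h => h⟩ : a.G →g (join a b).G)

theorem reachable_inr {a b : RT} {x y : b.V} (h : b.G.Reachable x y) :
    (join a b).G.Reachable (inr x) (inr y) :=
  h.map (⟨inr, fun h => h⟩ : b.G →g (join a b).G)

theorem reachable_root : ∀ (t : RT) (v : t.V), t.G.Reachable t.root v := by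
  intro t
  induction t with
  | leaf => intro v; exact SimpleGraph.Reachable.refl _
  | join a b iha ihb =>
    intro v
    refine join_cases (fun x => ?_) (fun y => ?_) v
    · exact reachable_inl (iha x)
    · have h : (join a b).G.Adj (inl a.root) (inr b.root) := (join_inl_inr _ _).2 ⟨rfl, rfl⟩
      exact h.reachable.trans (reachable_inr (ihb y))

theorem connected (t : RT) : t.G.Connected := by
  have : Nonempty t.V := ⟨t.root⟩
  exact ⟨fun u v => (reachable_root t u).symm.trans (reachable_root t v)⟩

theorem sum_nsum_one : ∀ t : RT, (∑ v, nsum t.G (fun _ => (1 : ℕ)) v) + 2 =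
    2 * Fintype.card t.V := by
  intro t
  induction t with
  | leaf =>
    rw [sum_leaf, nsum_leaf, card_leaf]
  | join a b iha ihb =>
    rw [sum_join, card_join]
    simp only [nsum_join_inl, nsum_join_inr, Finset.sum_add_distrib]
    simp only [Finset.sum_ite_eq', Finset.mem_univ, if_true]
    omega

theorem isTree (t : RT) : t.G.IsTree := by
  classical
  rw [SimpleGraph.isTree_iff_connected_and_card]
  refine ⟨connected t, ?_⟩
  have h1 := sum_nsum_one t
  have h2 : ∀ v, nsum t.G (fun _ => (1 : ℕ)) v = t.G.degree v := by
    intro v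
    rw [nsum_eq, ← Finset.sum_filter, ← SimpleGraph.card_neighborFinset_eq_degree,
      Finset.card_eq_sum_ones]
    refine Finset.sum_congr ?_ fun _ _ => rfl
    ext w
    simp
  rw [Finset.sum_congr rfl fun v _ => h2 v, SimpleGraph.sum_degrees_eq_twice_card_edges] at h1
  rw [Nat.card_eq_fintype_card, Nat.card_eq_fintype_card]
  have h3 : Fintype.card t.G.edgeSet = t.G.edgeFinset.card := by
    rw [← SimpleGraph.edgeFinset_card]
  omega

end Q192.TR.RT
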