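import Mathlib

set_option autoImplicit false

/-! Rooted trees built from single vertices by hanging one tree below the root of another; every
finite tree with a chosen root is isomorphic to one of these. -/

namespace Q192.TR

/-- Shapes of rooted trees: `join a b` hangs `b` below the root of `a`. -/
inductive RT : Type
  | leaf : RT
  | join : RT → RT → RT

namespace RT

/-- The vertices of a rooted tree. -/
def V : RT → Type
  | leaf => Unit
  | join a b => a.V ⊕ b.V

instance instFintypeV : (t : RT) → Fintype t.V
  | leaf => inferInstanceAs (Fintype Unit)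
  | join a b => @instFintypeSum a.V b.V (instFintypeV a) (instFintypeV b)

instance instDecidableEqV : (t : RT) → DecidableEq t.V
  | leaf => inferInstanceAs (DecidableEq Unit)
  | join a b => @instDecidableEqSum a.V b.V (instDecidableEqV a) (instDecidableEqV b)

/-- The root. -/
def root : (t : RT) → t.V
  | leaf => ()
  | join a _ => Sum.inl a.root

/-- Adjacency. -/
def adj : (t : RT) → t.V → t.V → Prop
  | leaf, _, _ => False
  | join a _, Sum.inl x, Sum.inl y => a.adj x y
  | join _ b, Sum.inr x, Sum.inr y => b.adj x y
  | join a b, Sum.inl x, Sum.inr y => x = a.root ∧ y = b.root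
  | join a b, Sum.inr y, Sum.inl x => x = a.root ∧ y = b.root

theorem adj_symm : (t : RT) → ∀ x y : t.V, t.adj x y → t.adj y x
  | leaf, _, _, h => h
  | join a _, Sum.inl x, Sum.inl y, h => adj_symm a x y h
  | join _ b, Sum.inr x, Sum.inr y, h => adj_symm b x y h
  | join _ _, Sum.inl _, Sum.inr _, h => h
  | join _ _, Sum.inr _, Sum.inl _, h => h

theorem adj_irrefl : (t : RT) → ∀ x : t.V, ¬ t.adj x x
  | leaf, _, h => h
  | join a _, Sum.inl x, h => adj_irrefl a x h
  | join _ b, Sum.inr x, h => adj_irrefl b x h

/-- The graph of a rooted tree. -/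
def G (t : RT) : SimpleGraph t.V where
  Adj := t.adj
  symm := ⟨fun x y h => adj_symm t x y h⟩
  loopless := ⟨fun x h => adj_irrefl t x h⟩

section
variable {a b : RT}

/-- Inclusion of the upper tree. -/
def inl (x : a.V) : (join a b).V := Sum.inl x
/-- Inclusion of the hanging tree. -/
def inr (y : b.V) : (join a b).V := Sum.inr y

/-- A function on a join from functions on the two parts. -/
def glue {M : Type*} (f : a.V → M) (g : b.V → M) : (join a b).V → M
  | Sum.inl x => f x
  | Sum.inr y => g y

@[simp] theorem glue_inl {M : Type*} (f : a.V → M) (g : b.V → M) (x : a.V) :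
    glue f g (inl x) = f x := rfl
@[simp] theorem glue_inr {M : Type*} (f : a.V → M) (g : b.V → M) (y : b.V) :
    glue f g (inr y) = g y := rfl

theorem join_cases {P : (join a b).V → Prop} (h1 : ∀ x : a.V, P (inl x))
    (h2 : ∀ y : b.V, P (inr y)) (v : (join a b).V) : P v :=
  match v with
  | Sum.inl x => h1 x
  | Sum.inr y => h2 y

theorem forall_join {P : (join a b).V → Prop} :
    (∀ v, P v) ↔ (∀ x : a.V, P (inl x)) ∧ (∀ y : b.V, P (inr y)) :=
  ⟨fun h => ⟨fun _ => h _, fun _ => h _⟩, fun h v => join_cases h.1 h.2 v⟩

theorem forall_leaf {P : leaf.V → Prop} : (∀ v, P v) ↔ P leaf.root :=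
  ⟨fun h => h _, fun h _ => h⟩

@[simp] theorem inl_inj (x y : a.V) : (inl x : (join a b).V) = inl y ↔ x = y :=
  ⟨fun h => Sum.inl_injective h, fun h => h ▸ rfl⟩
@[simp] theorem inr_inj (x y : b.V) : (inr x : (join a b).V) = inr y ↔ x = y :=
  ⟨fun h => Sum.inr_injective h, fun h => h ▸ rfl⟩
@[simp] theorem inl_ne_inr (x : a.V) (y : b.V) : (inl x : (join a b).V) ≠ inr y :=
  fun h => Sum.inl_ne_inr h
@[simp] theorem inr_ne_inl (x : a.V) (y : b.V) : (inr y : (join a b).V) ≠ inl x :=
  fun h => Sum.inr_ne_inl h

@[simp] theorem join_inl_inl (x y : a.V) :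
    (join a b).G.Adj (inl x) (inl y) ↔ a.G.Adj x y := Iff.rfl
@[simp] theorem join_inr_inr (x y : b.V) :
    (join a b).G.Adj (inr x) (inr y) ↔ b.G.Adj x y := Iff.rfl
@[simp] theorem join_inl_inr (x : a.V) (y : b.V) :
    (join a b).G.Adj (inl x) (inr y) ↔ x = a.root ∧ y = b.root := Iff.rfl
@[simp] theorem join_inr_inl (x : a.V) (y : b.V) :
    (join a b).G.Adj (inr y) (inl x) ↔ x = a.root ∧ y = b.root := Iff.rfl
@[simp] theorem join_root : (join a b).root = inl a.root := rfl
theorem leaf_adj (x y : leaf.V) : ¬ leaf.G.Adj x y := fun h => h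
theorem leaf_eq (x : leaf.V) : x = leaf.root := rfl

/-- Equivalence with the sum type. -/
def joinEquiv (a b : RT) : a.V ⊕ b.V ≃ (join a b).V := Equiv.refl _

theorem joinEquiv_inl (x : a.V) : joinEquiv a b (Sum.inl x) = inl x := rfl
theorem joinEquiv_inr (x : b.V) : joinEquiv a b (Sum.inr x) = inr x := rfl

end

/-- Sum of `f` over the neighbours of `v`. -/
noncomputable def nsum {M : Type*} [AddCommMonoid M] {V : Type*} [Fintype V] (G : SimpleGraph V)
    (f : V → M) (v : V) : M := by
  classical
  exact ∑ w, if G.Adj v w then f w else 0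

open Classical in
theorem nsum_eq {M : Type*} [AddCommMonoid M] {V : Type*} [Fintype V] (G : SimpleGraph V)
    (f : V → M) (v : V) : nsum G f v = ∑ w, if G.Adj v w then f w else 0 := rfl

theorem nsum_leaf {M : Type*} [AddCommMonoid M] (f : leaf.V → M) (v : leaf.V) :
    nsum leaf.G f v = 0 := by
  classical
  rw [nsum_eq]
  exact Finset.sum_eq_zero fun w _ => if_neg (leaf_adj v w)

theorem sum_leaf {M : Type*} [AddCommMonoid M] (f : leaf.V → M) : ∑ v, f v = f leaf.root := by
  have : (Finset.univ : Finset leaf.V) = {leaf.root} := rfl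
  rw [this, Finset.sum_singleton]

theorem sum_join {M : Type*} [AddCommMonoid M] {a b : RT} (f : (join a b).V → M) :
    ∑ v, f v = ∑ x : a.V, f (inl x) + ∑ y : b.V, f (inr y) :=
  Fintype.sum_sum_type f

theorem card_leaf : Fintype.card leaf.V = 1 := rfl

theorem card_join (a b : RT) : Fintype.card (join a b).V = Fintype.card a.V + Fintype.card b.V :=
  Fintype.card_sum

theorem nsum_join_inl {M : Type*} [AddCommMonoid M] {a b : RT} (f : (join a b).V → M) (x : a.V) :
    nsum (join a b).G f (inl x) =
      nsum a.G (fun z => f (inl z)) x + if x = a.root then f (inr b.root) else 0 := by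
  classical
  rw [nsum_eq, nsum_eq, sum_join]
  congr 1
  by_cases h : x = a.root
  · rw [if_pos h]
    have : ∀ w : b.V, (if (join a b).G.Adj (inl x) (inr w) then f (inr w) else 0) =
        if w = b.root then f (inr w) else 0 := by
      intro w
      simp [h]
    rw [Finset.sum_congr rfl fun w _ => this w]
    simp
  · rw [if_neg h]
    refine Finset.sum_eq_zero fun w _ => ?_
    simp [h]

theorem nsum_join_inr {M : Type*} [AddCommMonoid M] {a b : RT} (f : (join a b).V → M) (y : b.V) :
    nsum (join a b).G f (inr y) =
      nsum b.G (fun z => f (inr z)) y + if y = b.root then f (inl a.root) else 0 := by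
  classical
  rw [nsum_eq, nsum_eq, sum_join, add_comm]
  congr 1
  by_cases h : y = b.root
  · rw [if_pos h]
    have : ∀ w : a.V, (if (join a b).G.Adj (inr y) (inl w) then f (inl w) else 0) =
        if w = a.root then f (inl w) else 0 := by
      intro w
      simp [h]
    rw [Finset.sum_congr rfl fun w _ => this w]
    simp
  · rw [if_neg h]
    refine Finset.sum_eq_zero fun w _ => ?_
    simp [h]

theorem nsum_iso {M : Type*} [AddCommMonoid M] {V W : Type*} [Fintype V] [Fintype W]
    {G : SimpleGraph V} {H : SimpleGraph W} (e : G ≃g H) (f : W → M) (v : V) :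
    nsum G (fun x => f (e x)) v = nsum H f (e v) := by
  classical
  rw [nsum_eq, nsum_eq]
  refine Fintype.sum_equiv e.toEquiv _ _ fun x => ?_
  have : G.Adj v x ↔ H.Adj (e v) (e x) := (e.map_adj_iff).symm
  exact if_congr this rfl rfl

end RT

section Exists

variable {V : Type*}

/-- Every finite tree with a chosen root is isomorphic to a shape. -/
theorem exists_iso_aux : ∀ (n : ℕ) (V : Type) [Fintype V] (G : SimpleGraph V), Fintype.card V ≤ n →
    G.Connected → G.IsAcyclic → ∀ r : V, ∃ (t : RT) (e : G ≃g t.G), e r = t.root := by
  classical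
  intro n
  induction n with
  | zero =>
    intro V _ G hc _ _ r
    exact absurd (Fintype.card_pos_iff.2 ⟨r⟩) (by omega)
  | succ n ih =>
    intro V _ G hcard hconn hac r
    by_cases hnb : ∃ s, G.Adj r s
    · obtain ⟨s, hrs⟩ := hnb
      have hbr : G.IsBridge s(r, s) :=
        (SimpleGraph.isAcyclic_iff_forall_adj_isBridge.1 hac) hrs
      set H := G.deleteEdges {s(r, s)} with hH
      have hnr : ¬ H.Reachable r s := by
        exact SimpleGraph.isBridge_iff.1 hbr
      have hHadj : ∀ x y, H.Adj x y ↔ G.Adj x y ∧ s(x, y) ≠ s(r, s) := by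
        intro x y
        rw [hH, SimpleGraph.deleteEdges_adj]
        simp
      have hall : ∀ v, H.Reachable r v ∨ H.Reachable s v := by
        intro v
        have hrv : G.Reachable r v := hconn.preconnected r v
        rw [SimpleGraph.reachable_iff_reflTransGen] at hrv
        induction hrv with
        | refl => exact Or.inl (SimpleGraph.Reachable.refl _)
        | tail _ hxy ih' =>
          rename_i x y _
          by_cases he : s(x, y) = s(r, s)
          · rw [Sym2.eq_iff] at he
            rcases he with ⟨h1, h2⟩ | ⟨h1, h2⟩
            · exact Or.inr (h2 ▸ SimpleGraph.Reachable.refl _)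
            · exact Or.inl (h2 ▸ SimpleGraph.Reachable.refl _)
          · have hadj : H.Adj x y := (hHadj x y).2 ⟨hxy, he⟩
            rcases ih' with h | h
            · exact Or.inl (h.trans hadj.reachable)
            · exact Or.inr (h.trans hadj.reachable)
      let A : Set V := {v | H.Reachable r v}
      have hrA : r ∈ A := SimpleGraph.Reachable.refl _
      have hsA : s ∉ A := hnr
      have hAc : ∀ v, v ∈ Aᶜ ↔ H.Reachable s v := by
        intro v
        constructor
        · intro h
          exact (hall v).resolve_left h
        · intro h h'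
          exact hnr (SimpleGraph.Reachable.trans h' h.symm)
      -- adjacency in G between vertices of A
      have hcross : ∀ x y, x ∈ A → y ∈ Aᶜ → (G.Adj x y ↔ x = r ∧ y = s) := by
        intro x y hx hy
        constructor
        · intro h
          by_cases he : s(x, y) = s(r, s)
          · rw [Sym2.eq_iff] at he
            rcases he with h' | ⟨h1, h2⟩
            · exact h'
            · exact absurd hx (h1 ▸ hsA)
          · have hadj : H.Adj x y := (hHadj x y).2 ⟨h, he⟩
            exact absurd (SimpleGraph.Reachable.trans hx hadj.reachable) hy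
        · rintro ⟨rfl, rfl⟩
          exact hrs
      have connA : (G.induce A).Connected := by
        have key : ∀ v, H.Reachable r v → ∀ hv : v ∈ A,
            (G.induce A).Reachable ⟨r, hrA⟩ ⟨v, hv⟩ := by
          intro v hv
          rw [SimpleGraph.reachable_iff_reflTransGen] at hv
          induction hv with
          | refl => intro _; exact SimpleGraph.Reachable.refl _
          | tail hrx hxy ih' =>
            rename_i x y
            intro hy
            have hx : x ∈ A := by
              rw [← SimpleGraph.reachable_iff_reflTransGen] at hrx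
              exact hrx
            refine (ih' hx).trans ?_
            refine SimpleGraph.Adj.reachable ?_
            exact ((hHadj x y).1 hxy).1
        have : Nonempty A := ⟨⟨r, hrA⟩⟩
        exact ⟨fun u v => (key u.1 u.2 u.2).symm.trans (key v.1 v.2 v.2)⟩
      have connB : (G.induce Aᶜ).Connected := by
        have key : ∀ v, H.Reachable s v → ∀ hv : v ∈ Aᶜ,
            (G.induce Aᶜ).Reachable ⟨s, hsA⟩ ⟨v, hv⟩ := by
          intro v hv
          rw [SimpleGraph.reachable_iff_reflTransGen] at hv
          induction hv with
          | refl => intro _; exact SimpleGraph.Reachable.refl _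
          | tail hrx hxy ih' =>
            rename_i x y
            intro hy
            have hx : x ∈ Aᶜ := by
              rw [← SimpleGraph.reachable_iff_reflTransGen] at hrx
              exact (hAc x).2 hrx
            refine (ih' hx).trans ?_
            refine SimpleGraph.Adj.reachable ?_
            exact ((hHadj x y).1 hxy).1
        have : Nonempty (Aᶜ : Set V) := ⟨⟨s, hsA⟩⟩
        exact ⟨fun u v => (key u.1 ((hAc _).1 u.2) u.2).symm.trans
          (key v.1 ((hAc _).1 v.2) v.2)⟩
      have acA : (G.induce A).IsAcyclic := hac.induce A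
      have acB : (G.induce Aᶜ).IsAcyclic := hac.induce Aᶜ
      have cA : Fintype.card A ≤ n := by
        have : Fintype.card A < Fintype.card V := Fintype.card_subtype_lt (x := s) hsA
        omega
      have cB : Fintype.card (Aᶜ : Set V) ≤ n := by
        have : Fintype.card (Aᶜ : Set V) < Fintype.card V :=
          Fintype.card_subtype_lt (x := r) (fun h => h hrA)
        omega
      obtain ⟨ta, ea, hea⟩ := ih A (G.induce A) cA connA acA ⟨r, hrA⟩
      obtain ⟨tb, eb, heb⟩ := ih (Aᶜ : Set V) (G.induce Aᶜ) cB connB acB ⟨s, hsA⟩
      let e0 : V ≃ (RT.join ta tb).V :=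
        ((Equiv.Set.sumCompl A).symm.trans (Equiv.sumCongr ea.toEquiv eb.toEquiv)).trans
          (RT.joinEquiv ta tb)
      have he0A : ∀ x (hx : x ∈ A), e0 x = RT.inl (ea ⟨x, hx⟩) := by
        intro x hx
        simp only [e0, Equiv.trans_apply, Equiv.Set.sumCompl_symm_apply_of_mem hx]
        rfl
      have he0B : ∀ x (hx : x ∈ Aᶜ), e0 x = RT.inr (eb ⟨x, hx⟩) := by
        intro x hx
        simp only [e0, Equiv.trans_apply, Equiv.Set.sumCompl_symm_apply_of_notMem hx]
        rfl
      refine ⟨RT.join ta tb, ⟨e0, ?_⟩, ?_⟩
      · intro x y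
        by_cases hx : x ∈ A <;> by_cases hy : y ∈ A
        · rw [he0A x hx, he0A y hy]
          exact ea.map_adj_iff
        · rw [he0A x hx, he0B y hy, hcross x y hx hy]
          refine (RT.join_inl_inr _ _).trans ?_
          rw [← hea, ← heb]
          simp
        · rw [he0B x hx, he0A y hy, G.adj_comm, hcross y x hy hx]
          refine (RT.join_inr_inl _ _).trans ?_
          rw [← hea, ← heb]
          simp
        · rw [he0B x hx, he0B y hy]
          exact eb.map_adj_iff
      · change e0 r = _
        rw [he0A r hrA, hea]
        rfl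
    · push Not at hnb
      have huniq : ∀ v, v = r := by
        intro v
        have h := hconn.preconnected r v
        rw [SimpleGraph.reachable_iff_reflTransGen] at h
        rcases Relation.ReflTransGen.cases_head h with h | ⟨c, hc, _⟩
        · exact h.symm
        · exact absurd hc (hnb c)
      refine ⟨RT.leaf, ⟨⟨fun _ => (), fun _ => r, fun v => (huniq v).symm, fun _ => rfl⟩, ?_⟩, rfl⟩
      intro x y
      constructor
      · intro h; exact h.elim
      · intro h
        rw [huniq x] at h
        exact absurd h (hnb y)

theorem exists_iso {V : Type} [Fintype V] {G : SimpleGraph V} (h : G.IsTree) (r : V) :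
    ∃ (t : RT) (e : G ≃g t.G), e r = t.root :=
  exists_iso_aux _ V G le_rfl h.1 h.2 r

end Exists

end Q192.TR
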